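import Mathlib
import Pool.Agent.Y532.MB.Main

/-!
# MP_7cc380_an: a single bounded form without any bounded solution on the generalized unit discs

On `{Z ∈ M_{p×q}(ℂ) : I - Z Z^* > 0}`, `p, q ≥ 2` (for `p = q = n` the domain of the problem), in
every bidegree `(r, 1)` there is one smooth `∂̄`-closed form `g` with `‖g‖_∞ ≤ 1` such that
`∂̄f = g` has no solution with bounded coefficients at all. (The starting file `UniformFails` says
that there is no constant `C` for the uniform estimates in bidegree `(0, 1)` on the square discs.)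

The forms `∂̄u_{J,N}` of the starting library vanish near each given point of the domain if `J` is
large; so sums of infinitely many of them with bounded coefficients are locally finite, hence smooth
and closed, and the open mapping theorem for the space of the pairs (sequence of coefficients, bounded
solution) shows that one of the sums has no bounded solution.
-/

set_option autoImplicit false

open MeasureTheory Set
open scoped ContDiff ComplexOrder
open Pool.Agent.Helper303.Mb

namespace Pool.Agent.Results.MP_7cc380_an.NoBoundedSolution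

/-- The domain `{Z ∈ M_{p×q}(ℂ) : I - Z Z^* > 0}`; `toMat z` is the matrix with the entries
`z (j, k)`. -/
def Disc (p q : ℕ) : Set (Fin p × Fin q → ℂ) :=
  {z | (1 - toMat z * (toMat z).conjTranspose).PosDef}

/-- The index sets `I` of the `(r, 0)`-forms `∑ f_I dz_I`: the sets of `r` entries. -/
abbrev Idx (p q r : ℕ) : Type := {s : Finset (Fin p × Fin q) // s.card = r}

/-- There is a smooth `∂̄`-closed `(r, 1)`-form `g = ∑_{I, k} g_{I, k} dz_I ∧ dz̄_k` on `D` with
`|g_{I, k}| ≤ 1` such that no `(r, 0)`-form `f = ∑_I f_I dz_I` with bounded measurable coefficients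
satisfies `∂̄f = g` in the sense of distributions, i.e. `∂f_I/∂z̄_k = (-1)^r g_{I, k}` for all
`I` and `k`. -/
def NoBounded {p q : ℕ} (D : Set (Fin p × Fin q → ℂ)) (r : ℕ) : Prop :=
  ∃ g : (Fin p × Fin q → ℂ) → Idx p q r → (Fin p × Fin q) → ℂ,
    (∀ I k, ContDiffOn ℝ ∞ (fun x => g x I k) D) ∧
    (∀ x ∈ D, ∀ I j k, dbar k (fun x => g x I j) x = dbar j (fun x => g x I k) x) ∧
    (∀ x ∈ D, ∀ I k, ‖g x I k‖ ≤ 1) ∧
    ∀ f : (Fin p × Fin q → ℂ) → Idx p q r → ℂ,
      (∀ I, AEStronglyMeasurable (fun x => f x I) (volume.restrict D)) →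
      (∀ I, ∃ b : ℝ, ∀ᵐ x ∂(volume.restrict D), ‖f x I‖ ≤ b) →
      ¬ ∀ I, SolvesDbar D (fun x => f x I) (fun x k => (-1) ^ r * g x I k)

theorem idx_nonempty {p q r : ℕ} (h : r ≤ p * q) : Nonempty (Idx p q r) := by
  have h1 : r ≤ (Finset.univ : Finset (Fin p × Fin q)).card := by simpa using h
  obtain ⟨t, _, ht⟩ := Finset.exists_subset_card_eq h1
  exact ⟨⟨t, ht⟩⟩

/-- `I - Z Z^* > 0` if and only if the transpose of `Z` is in the matrix ball of the library -/
theorem mem_Disc {p q : ℕ} (z : Fin p × Fin q → ℂ) :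
    z ∈ Disc p q ↔ (fun k : Fin q × Fin p => z (k.2, k.1)) ∈ matrixBall q p := by
  unfold Disc matrixBall
  rw [mem_ofPred_eq, mem_ofPred_eq, ← Matrix.PosDef.transpose_iff]
  have e : (1 - toMat z * (toMat z).conjTranspose).transpose =
      1 - (toMat (fun k : Fin q × Fin p => z (k.2, k.1))).conjTranspose *
        toMat (fun k : Fin q × Fin p => z (k.2, k.1)) := by
    rw [Matrix.transpose_sub, Matrix.transpose_one, Matrix.transpose_mul]
    rfl
  rw [e]

theorem isOpen_Disc (p q : ℕ) : IsOpen (Disc p q) := by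
  have e : Disc p q = (fun (z : Fin p × Fin q → ℂ) (k : Fin q × Fin p) => z (k.2, k.1)) ⁻¹'
      matrixBall q p := by
    ext z
    exact mem_Disc z
  rw [e]
  exact (isOpen_matrixBall q p).preimage (by fun_prop)

/-- the transposed block -/
def bl (p q : ℕ) : Blk (Fin (p + 2) × Fin (q + 2)) where
  k11 := (0, 0)
  k12 := (1, 0)
  k21 := (0, 1)
  k22 := (1, 1)
  h1 := by simp
  h2 := by simp
  h3 := by simp
  h4 := by simp
  h5 := by simp
  h6 := by simp

theorem sub_CB (p q : ℕ) (z : Fin (p + 2) × Fin (q + 2) → ℂ)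
    (hz : (fun k : Fin (q + 2) × Fin (p + 2) => z (k.2, k.1)) ∈ matrixBall (q + 2) (p + 2)) :
    z ∈ CB (bl p q) := by
  have h1 := matrixBall_CB q p hz
  rw [mem_CB] at h1 ⊢
  have e1 : (bl p q).k11 = (0, 0) := rfl
  have e2 : (bl p q).k12 = (1, 0) := rfl
  have e3 : (bl p q).k21 = (0, 1) := rfl
  have e4 : (bl p q).k22 = (1, 1) := rfl
  have f1 : (blk q p).k11 = (0, 0) := rfl
  have f2 : (blk q p).k12 = (0, 1) := rfl
  have f3 : (blk q p).k21 = (1, 0) := rfl
  have f4 : (blk q p).k22 = (1, 1) := rfl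
  rw [e1, e2, e3, e4]
  rw [f1, f2, f3, f4] at h1
  exact h1

theorem sl_eq (p q : ℕ) (z0 zi z1 : ℂ) :
    (fun k : Fin (q + 2) × Fin (p + 2) => sl (bl p q) z0 zi z1 (k.2, k.1)) =
        sl (blk q p) z0 zi z1 := by
  funext k
  obtain ⟨i, j⟩ := k
  simp only [sl, blk, bl, Prod.mk.injEq]
  congr 1
  · simp [and_comm]
  congr 1
  · simp [and_comm]
  congr 1
  simp [and_comm]

theorem norm_le (p q : ℕ) (z : Fin (p + 2) × Fin (q + 2) → ℂ)
    (hz : (fun k : Fin (q + 2) × Fin (p + 2) => z (k.2, k.1)) ∈ matrixBall (q + 2) (p + 2)) :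
    ‖z‖ ≤ 1 := by
  have h := norm_le_matrixBall hz
  rw [pi_norm_le_iff_of_nonneg zero_le_one] at h ⊢
  rintro ⟨i, j⟩
  exact h (j, i)

/-- **One form without bounded solution.** For all `p, q ≥ 2` and `0 ≤ r ≤ p q` there is a smooth
`∂̄`-closed `(r, 1)`-form `g` on `{Z ∈ M_{p×q}(ℂ) : I - Z Z^* > 0}` with `‖g‖_∞ ≤ 1` such that
`∂̄f = g` has no solution `f` with bounded measurable coefficients. For `p = q = n` this is the
domain of the problem; in particular no uniform estimates hold in the bidegrees `(r, 1)`. -/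
theorem result (p q : ℕ) (hp : 2 ≤ p) (hq : 2 ≤ q) (r : ℕ) (hr : r ≤ p * q) :
    NoBounded (Disc p q) r := by
  obtain ⟨p, rfl⟩ : ∃ p', p = p' + 2 := ⟨p - 2, by omega⟩
  obtain ⟨q, rfl⟩ : ∃ q', q = q' + 2 := ⟨q - 2, by omega⟩
  refine Pool.Agent.Y532.MB.one_form_r (bl p q) (isOpen_Disc _ _)
    (fun z hz => sub_CB p q z ((mem_Disc z).1 hz)) (fun z hz => norm_le p q z ((mem_Disc z).1 hz))
    (fun z0 zi z1 hP => (mem_Disc _).2 ?_) _ (idx_nonempty hr) r
  rw [sl_eq]
  exact slice_matrixBall q p hP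

end Pool.Agent.Results.MP_7cc380_an.NoBoundedSolution
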